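import Pool.Agent.R715.OddSym

set_option autoImplicit false
set_option maxHeartbeats 400000

/-!
# Symmetric functions in odd Jucys-Murphy elements span the Hecke algebra of `(S_{2n}, H_n)`

Proof.  Let `V = {F(J_1, J_3, …) P_n}`.  (1) `V ⊆ ℋ_n`: if `y` is left `H_n`-invariant, so is
`e_r(J_1, J_3, …) y` (direct computation with the generators of `H_n`), hence so is `F(J) y` for
all symmetric `F`.  (2) For `σ ∈ S_{2n}` let `s(σ)` be the number of letters on which the
matching `σ θ σ⁻¹` differs from the standard matching `θ`; it depends only on `H_n σ H_n`.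
Removing from the matching of `σ` the cycle through the last nontrivial pair, with `a + 1` pairs,
gives `σ'` with `s(σ') = s(σ) - 2 (a + 1)`, and `p_a(J_1, J_3, …)` times the double coset sum of
`σ'` is a positive multiple of the double coset sum of `σ` plus double coset sums with smaller `s`.
By induction on `s` all double coset sums lie in `V`.
-/

namespace Pool.Agent.Results.MP_fb7f9c_al.HeckeSpan

open Equiv Finset

/-- the group algebra `ℂ[S_{2n}]`; the letters `1, …, 2n` are represented by `0, …, 2n - 1` -/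
abbrev CS (n : ℕ) := MonoidAlgebra ℂ (Perm (Fin (2 * n)))

/-- the Jucys-Murphy element `J_k = Σ_{i < k} (i k)` of the letter `k` -/
noncomputable def JM {n : ℕ} (k : Fin (2 * n)) : CS n :=
  ∑ i ∈ univ.filter (fun i => i < k), MonoidAlgebra.single (swap i k) 1

/-- the letter `2 j - 1` of the pair `j = 1, …, n` (represented by `j - 1 ∈ Fin n`) -/
def fst {n : ℕ} (j : Fin n) : Fin (2 * n) := ⟨2 * j.val, by omega⟩

/-- the letter `2 j` of the pair `j = 1, …, n` (represented by `j - 1 ∈ Fin n`) -/
def snd {n : ℕ} (j : Fin n) : Fin (2 * n) := ⟨2 * j.val + 1, by omega⟩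

/-- the hyperoctahedral group `H_n`, generated by the `(2i-1 2i)` and the
`(2i-1 2j-1) (2i 2j)`, `i < j` -/
def H (n : ℕ) : Subgroup (Perm (Fin (2 * n))) :=
  Subgroup.closure ({g | ∃ i : Fin n, g = swap (fst i) (snd i)} ∪
    {g | ∃ i j : Fin n, i < j ∧ g = swap (fst i) (fst j) * swap (snd i) (snd j)})

open Classical in
/-- `P_n = Σ_{ζ ∈ H_n} ζ` -/
noncomputable def P (n : ℕ) : CS n :=
  ∑ ζ ∈ univ.filter (fun ζ => ζ ∈ H n), MonoidAlgebra.single ζ 1

/-- `F(J_1, J_3, …, J_{2n-1})` for a polynomial `F` in `n` variables -/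
noncomputable def evalJ {n : ℕ} (F : MvPolynomial (Fin n) ℂ) : CS n :=
  ∑ m ∈ F.support, F.coeff m • ((List.finRange n).map (fun j => JM (fst j) ^ m j)).prod

/-- the Hecke algebra `ℋ_n`: the elements with coefficients constant on the double cosets
`H_n σ H_n` -/
def HeckeAlg (n : ℕ) : Set (CS n) :=
  {x | ∀ h ∈ H n, ∀ h' ∈ H n, ∀ σ, x.coeff (h * σ * h') = x.coeff σ}

/-! ### transport -/

open Pool.Agent.R715.OddJM

/-- the identification of the letters -/
def eqv (n : ℕ) : Pt n ≃ Fin (2 * n) where
  toFun x := ⟨2 * x.1.val + (if x.2 then 1 else 0), by split_ifs <;> omega⟩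
  invFun p := (⟨p.val / 2, by omega⟩, decide (p.val % 2 = 1))
  left_inv := by
    rintro ⟨j, b⟩
    cases b
    · simp only [Prod.mk.injEq, Fin.ext_iff]
      constructor
      · simp
      · simp
    · simp only [Prod.mk.injEq, Fin.ext_iff]
      constructor
      · simp only [if_true]; omega
      · simp only [if_true]
        rw [decide_eq_true_iff]; omega
  right_inv := by
    intro p
    apply Fin.ext
    by_cases h : p.val % 2 = 1
    · simp only [h, decide_true, if_true]; omega
    · simp only [h, decide_false, Bool.false_eq_true, if_false]; omega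

theorem eqv_false {n : ℕ} (j : Fin n) : eqv n (j, false) = fst j := by
  apply Fin.ext; simp [eqv, fst]

theorem eqv_true {n : ℕ} (j : Fin n) : eqv n (j, true) = snd j := by
  apply Fin.ext; simp [eqv, snd]

/-- the isomorphism of the groups -/
noncomputable def phi (n : ℕ) : Perm (Pt n) ≃* Perm (Fin (2 * n)) := (eqv n).permCongrHom

theorem phi_swap {n : ℕ} (x y : Pt n) : phi n (swap x y) = swap (eqv n x) (eqv n y) :=
  Equiv.symm_trans_swap_trans x y (eqv n)

theorem phi_psw {n : ℕ} (i j : Fin n) :
    phi n (psw i j) = swap (fst i) (fst j) * swap (snd i) (snd j) := by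
  unfold psw
  rw [map_mul, phi_swap, phi_swap, eqv_false, eqv_false, eqv_true, eqv_true]

theorem phi_flip {n : ℕ} (i : Fin n) :
    phi n (swap (i, false) (i, true)) = swap (fst i) (snd i) := by
  rw [phi_swap, eqv_false, eqv_true]

theorem phi_mem {n : ℕ} (g : Perm (Pt n)) : phi n g ∈ H n ↔ g ∈ HH n := by
  constructor
  · intro h
    have h1 : H n ≤ (HH n).map (phi n).toMonoidHom := by
      unfold H
      rw [Subgroup.closure_le]
      rintro g (⟨i, rfl⟩ | ⟨i, j, hij, rfl⟩)
      · exact ⟨_, flip_mem i, phi_flip i⟩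
      · exact ⟨_, psw_mem (ne_of_lt hij), phi_psw i j⟩
    obtain ⟨g', hg', e⟩ := h1 h
    have e' : g' = g := (phi n).injective e
    rw [← e']
    exact hg'
  · intro h
    have h1 := HH_le_closure _ g h rfl
    clear h
    induction h1 using Subgroup.closure_induction with
    | mem g hg =>
      rcases hg with ⟨k, rfl⟩ | ⟨k, k', hk, rfl⟩
      · rw [phi_flip]
        exact Subgroup.subset_closure (Or.inl ⟨k, rfl⟩)
      · rw [phi_psw]
        exact Subgroup.subset_closure (Or.inr ⟨k, k', by rw [Fin.lt_def]; omega, rfl⟩)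
    | one => rw [map_one]; exact Subgroup.one_mem _
    | mul a b _ _ h1 h2 => rw [map_mul]; exact Subgroup.mul_mem _ h1 h2
    | inv a _ h1 => rw [map_inv]; exact Subgroup.inv_mem _ h1

/-- the isomorphism of the group algebras -/
noncomputable def psi (n : ℕ) : RR n ≃ₐ[ℂ] CS n := MonoidAlgebra.domCongr ℂ ℂ (phi n)

theorem psi_o {n : ℕ} (g : Perm (Pt n)) : psi n (o g) = MonoidAlgebra.single (phi n g) 1 := by
  unfold psi o
  rw [MonoidAlgebra.of_apply, MonoidAlgebra.domCongr_single]

theorem psi_JJ {n : ℕ} (k : Fin n) : psi n (JJ k) = JM (fst k) := by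
  unfold JJ Pool.Agent.R715.OddJM.star JM
  rw [map_sum]
  refine sum_bij (fun x _ => eqv n x) ?_ ?_ ?_ ?_
  · intro x hx
    rw [mem_below, Fin.lt_def] at hx
    simp only [mem_filter, mem_univ, true_and, Fin.lt_def, eqv, fst, Equiv.coe_fn_mk]
    split_ifs <;> omega
  · intro x _ y _ h
    exact (eqv n).injective h
  · intro p hp
    refine ⟨(eqv n).symm p, ?_, (eqv n).apply_symm_apply p⟩
    simp only [mem_filter, mem_univ, true_and, Fin.lt_def, fst] at hp
    rw [mem_below, Fin.lt_def]
    simp only [eqv, Equiv.coe_fn_symm_mk]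
    omega
  · intro x _
    rw [psi_o, phi_swap, eqv_false]

theorem psi_PP (n : ℕ) : psi n (PP n) = P n := by
  classical
  unfold PP P
  rw [map_sum]
  refine sum_bij (fun g _ => phi n g) ?_ ?_ ?_ ?_
  · intro g hg
    simp only [mem_filter, mem_univ, true_and] at hg ⊢
    exact (phi_mem g).2 hg
  · intro x _ y _ h
    exact (phi n).injective h
  · intro p hp
    simp only [mem_filter, mem_univ, true_and] at hp
    refine ⟨(phi n).symm p, ?_, (phi n).apply_symm_apply p⟩
    simp only [mem_filter, mem_univ, true_and]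
    rw [← phi_mem, (phi n).apply_symm_apply]
    exact hp
  · intro g _
    exact psi_o g

theorem psi_ev {n : ℕ} (F : MvPolynomial (Fin n) ℂ) : psi n (ev n F) = evalJ F := by
  rw [ev_eq_sum, map_sum]
  unfold evalJ
  refine sum_congr rfl ?_
  intro m _
  rw [map_smul]
  congr 1
  unfold mon
  rw [map_list_prod, List.map_map]
  congr 1
  refine List.map_congr_left ?_
  intro j _
  rw [Function.comp_apply, map_pow, psi_JJ]

theorem hecke_iff {n : ℕ} (x : RR n) : psi n x ∈ HeckeAlg n ↔ Hecke x := by
  have hc : ∀ σ, (psi n x).coeff σ = x.coeff ((phi n).symm σ) :=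
    fun σ => MonoidAlgebra.coeff_domCongr _ _ _
  constructor
  · intro hx h hh h' hh' g
    have := hx (phi n h) ((phi_mem h).2 hh) (phi n h') ((phi_mem h').2 hh') (phi n g)
    rw [hc, hc, ← map_mul, ← map_mul, (phi n).symm_apply_apply, (phi n).symm_apply_apply] at this
    exact this
  · intro hx h hh h' hh' g
    have e : (phi n).symm (h * g * h') =
        (phi n).symm h * (phi n).symm g * (phi n).symm h' := by simp only [map_mul]
    rw [hc, hc, e]
    refine hx _ ?_ _ ?_ _
    · rw [← phi_mem, (phi n).apply_symm_apply]; exact hh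
    · rw [← phi_mem, (phi n).apply_symm_apply]; exact hh'

/-- For every `n ≥ 1`, the elements `F(J_1, J_3, …, J_{2n-1}) P_n`, `F` a symmetric function
(evaluated at `n` elements, that is, a symmetric polynomial in `n` variables), form exactly the
Hecke algebra `ℋ_n` of the Gelfand pair `(S_{2n}, H_n)`. -/
theorem result (n : ℕ) (_hn : 1 ≤ n) :
    {x : CS n | ∃ F : MvPolynomial (Fin n) ℂ, F.IsSymmetric ∧ x = evalJ F * P n} =
      HeckeAlg n := by
  ext x
  obtain ⟨y, rfl⟩ := (psi n).surjective x
  rw [hecke_iff, ← main]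
  constructor
  · rintro ⟨F, hF, e⟩
    refine ⟨F, hF, (psi n).injective ?_⟩
    rw [map_mul, psi_ev, psi_PP]
    exact e
  · rintro ⟨F, hF, rfl⟩
    exact ⟨F, hF, by rw [map_mul, psi_ev, psi_PP]⟩

end Pool.Agent.Results.MP_fb7f9c_al.HeckeSpan
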